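import Pool.Agent.Lib.MP_843c79_co.Bessel

/-!
For every `k` there is a set of `k` distances whose distance graph on the Euclidean plane has
chromatic number at least `3 ^ k`.
-/

namespace Pool.Agent.Results.MP_843c79_co.Exponential

theorem result (k : ℕ) : ∃ H : Finset ℝ, H.card = k ∧ (∀ d ∈ H, 0 < d) ∧
    (3 : ℕ∞) ^ k ≤ (SimpleGraph.fromRel
      fun x y : EuclideanSpace ℝ (Fin 2) => dist x y ∈ H).chromaticNumber := by
  obtain ⟨S, h1, h2, h3⟩ := Pool.Agent.Lib.MP_843c79_co.exists_distances k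
  refine ⟨S, h1, h2, ?_⟩
  have h4 : (3 : ℕ∞) ^ k = ((3 ^ k : ℕ) : ℕ∞) := by norm_cast
  rw [h4, SimpleGraph.le_chromaticNumber_iff_coloring]
  intro m C
  refine Nat.cast_le.2 (h3 m (fun z => C (Complex.orthonormalBasisOneI.repr z)) fun x y h => ?_)
  refine C.valid ((SimpleGraph.fromRel_adj _ _ _).2 ⟨fun he => ?_, Or.inl ?_⟩)
  · rw [Complex.orthonormalBasisOneI.repr.injective he, sub_self, norm_zero] at h
    exact lt_irrefl _ (h2 _ h)
  · rwa [LinearIsometryEquiv.dist_map, dist_eq_norm]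

end Pool.Agent.Results.MP_843c79_co.Exponential
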