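import Pool.Agent.Lib.MP_843c79_co.LimUp

/-!
The exponential growth rate of the largest chromatic number of a plane distance graph with `k`
distances exists and equals the constant `phi` defined below.
-/

namespace Pool.Agent.Results.MP_843c79_co.Limit

open Filter Topology

/-- the largest chromatic number of a distance graph on the plane with `k` distances -/
noncomputable def f (k : ℕ) : ℕ∞ :=
  ⨆ (H : Finset ℝ) (_ : H.card = k ∧ ∀ d ∈ H, 0 < d),
    (SimpleGraph.fromRel fun x y : EuclideanSpace ℝ (Fin 2) => dist x y ∈ H).chromaticNumber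

/-- the quotients `n / a` over lists of `n` points of the plane in which every sublist without a
pair at distance one has at most `a` members -/
def ratios : Set ℝ :=
  {c | ∃ (n a : ℕ) (p : Fin n → EuclideanSpace ℝ (Fin 2)),
    (∀ S : Finset (Fin n), (∀ i ∈ S, ∀ j ∈ S, dist (p i) (p j) ≠ 1) → S.card ≤ a) ∧
    c = (n : ℝ) / (a : ℝ)}

/-- the supremum of these quotients -/
noncomputable def phi : ℝ := sSup ratios

open Pool.Agent.Lib.MP_843c79_co

theorem one_mem : (1 : ℝ) ∈ ratios :=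
  ⟨1, 1, fun _ => 0, fun S _ => by simpa using S.card_le_univ, by simp⟩

theorem RB_of_mem {c : ℝ} (hc : c ∈ ratios) (h0 : 0 < c) : RB {1} c⁻¹ := by
  classical
  obtain ⟨n, a, p, hp, rfl⟩ := hc
  let e := Complex.orthonormalBasisOneI.repr
  have hn : 0 < n := Nat.pos_of_ne_zero fun h => by simp [h] at h0
  have hn' : (0 : ℝ) < n := by exact_mod_cast hn
  have : Nonempty (Fin n) := ⟨⟨0, hn⟩⟩
  refine ⟨Fin n, inferInstance, inferInstance, fun i => e.symm (p i), fun A => ?_⟩
  have h1 := hp (Finset.univ.filter fun i => e.symm (p i) ∈ A.1) fun i hi j hj h =>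
    A.2 _ (Finset.mem_filter.1 hi).2 _ (Finset.mem_filter.1 hj).2 (by
      rw [← dist_eq_norm, LinearIsometryEquiv.dist_map]; exact h)
  simp only [ind, Finset.sum_boole, Fintype.card_fin, inv_div]
  rw [mul_div_cancel₀ _ hn'.ne']
  exact_mod_cast h1

theorem bdd : BddAbove ratios := by
  obtain ⟨col, hcol⟩ := exists_col
  refine ⟨16, fun c hc => ?_⟩
  rcases le_or_gt c 0 with h | h
  · linarith
  · have := (RB_of_mem hc h).colours col fun x y hxy => hcol x y hxy
    simp only [Fintype.card_prod, ZMod.card] at this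
    rw [← div_eq_mul_inv, le_div_iff₀ h] at this
    norm_num at this
    exact this

theorem one_le_phi : 1 ≤ phi := le_csSup bdd one_mem

theorem one_lt_phi : 1 < phi := by
  refine one_lt_two.trans_le (le_csSup bdd ⟨2, 1, ![0, EuclideanSpace.single 0 1], fun S hS => ?_,
    by norm_num⟩)
  refine Finset.card_le_one.2 fun i hi j hj => ?_
  have h := hS i hi j hj
  fin_cases i <;> fin_cases j <;> simp at h ⊢

theorem le_of_RB (b : ℝ) (hb : RB {1} b) : phi⁻¹ ≤ b := by
  classical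
  have hb0 := hb.nonneg
  obtain ⟨ι, _, _, p, hp⟩ := hb
  let e := Complex.orthonormalBasisOneI.repr
  let q := Fintype.equivFin ι
  have hι : (0 : ℝ) < Fintype.card ι := by exact_mod_cast Fintype.card_pos
  have key : ∀ S : Finset (Fin (Fintype.card ι)),
      (∀ i ∈ S, ∀ j ∈ S, dist (e (p (q.symm i))) (e (p (q.symm j))) ≠ 1) →
      S.card ≤ ⌊Fintype.card ι * b⌋₊ := fun S hS => by
    let A : Av {1} := ⟨{z | ∃ i ∈ S, p (q.symm i) = z}, by
      rintro _ ⟨i, hi, rfl⟩ _ ⟨j, hj, rfl⟩ h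
      refine hS i hi j hj ?_
      rw [LinearIsometryEquiv.dist_map, dist_eq_norm]
      exact h⟩
    have h1 := hp A
    rw [← Equiv.sum_comp q.symm] at h1
    refine Nat.le_floor (le_trans ?_ h1)
    have h2 : ∑ i ∈ S, ind (p (q.symm i)) A = S.card := by
      rw [Finset.sum_congr rfl fun i hi => show ind (p (q.symm i)) A = 1 from if_pos ⟨i, hi, rfl⟩]
      simp
    rw [← h2]
    exact Finset.sum_le_sum_of_subset_of_nonneg (Finset.subset_univ _) fun i _ _ => ind_nonneg _ _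
  have h1 : (Fintype.card ι : ℝ) / (⌊Fintype.card ι * b⌋₊ : ℕ) ≤ phi :=
    le_csSup bdd ⟨_, _, fun i => e (p (q.symm i)), key, rfl⟩
  have h2 : 1 ≤ ⌊Fintype.card ι * b⌋₊ := by
    have := key {q (Classical.arbitrary ι)} fun i hi j hj => by
      rw [Finset.mem_singleton.1 hi, Finset.mem_singleton.1 hj]; simp
    simpa only [Finset.card_singleton] using this
  have h3 : (0 : ℝ) < (⌊Fintype.card ι * b⌋₊ : ℕ) := by exact_mod_cast h2
  have h4 : ((⌊Fintype.card ι * b⌋₊ : ℕ) : ℝ) ≤ Fintype.card ι * b := Nat.floor_le (by positivity)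
  have h5 : 0 < phi := one_pos.trans_le one_le_phi
  rw [div_le_iff₀ h3] at h1
  rw [inv_le_iff_one_le_mul₀' h5]
  have h6 : (Fintype.card ι : ℝ) * 1 ≤ Fintype.card ι * (phi * b) := by nlinarith
  exact le_of_mul_le_mul_left h6 hι

theorem f_le {ρ : ℝ} (hρ : 0 < ρ) (h : ρ < phi⁻¹) : ∃ L : ℝ, 0 ≤ L ∧
    ∀ k n : ℕ, k * L < ρ ^ k * n → f k ≤ n := by
  obtain ⟨L, hL, hcov⟩ := cover hρ h le_of_RB
  let e := Complex.orthonormalBasisOneI.repr
  refine ⟨L, hL, fun k n hn => iSup₂_le fun H hH => ?_⟩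
  obtain ⟨γ, _, col, h1, h2⟩ := hcov H n hH.2 (by rwa [hH.1])
  refine SimpleGraph.Colorable.chromaticNumber_le (SimpleGraph.Colorable.mono h1
    (SimpleGraph.Coloring.mk (fun x => col (e.symm x)) fun {x y} hxy => ?_).colorable)
  refine h2 _ _ ?_
  rw [← dist_eq_norm, LinearIsometryEquiv.dist_map]
  rcases ((SimpleGraph.fromRel_adj _ _ _).1 hxy).2 with h3 | h3
  · exact h3
  · rwa [dist_comm]

theorem f_ne_top (k : ℕ) : f k ≠ ⊤ := by
  have h5 : 0 < phi⁻¹ := inv_pos.2 (one_pos.trans_le one_le_phi)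
  obtain ⟨L, -, h⟩ := f_le (half_pos h5) (half_lt_self h5)
  obtain ⟨n, hn⟩ := exists_nat_gt (k * L / (phi⁻¹ / 2) ^ k)
  rw [div_lt_iff₀' (by positivity)] at hn
  exact ne_top_of_le_ne_top (ENat.natCast_ne_top n) (h k n hn)

theorem pow_le_f (k : ℕ) : phi ^ k ≤ (f k).toNat := by
  let e := Complex.orthonormalBasisOneI.repr
  have h1 : ∀ c ∈ ratios, 0 < c → c ^ k ≤ (f k).toNat := fun c hc h0 => by
    have h2 : ∀ ε : ℝ, 0 < ε → 1 ≤ (f k).toNat * (c⁻¹ ^ k + ε) := fun ε hε => by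
      obtain ⟨H, h3, h4, h5⟩ := exists_RB_pow (RB_of_mem hc h0) k ε hε
      have h6 : (SimpleGraph.fromRel
          fun x y : EuclideanSpace ℝ (Fin 2) => dist x y ∈ H).chromaticNumber ≤ (f k).toNat := by
        rw [ENat.natCast_toNat (f_ne_top k)]
        exact le_iSup₂_of_le (f := fun (H : Finset ℝ) (_ : H.card = k ∧ ∀ d ∈ H, 0 < d) =>
          (SimpleGraph.fromRel
            fun x y : EuclideanSpace ℝ (Fin 2) => dist x y ∈ H).chromaticNumber) H ⟨h3, h4⟩ le_rfl
      obtain ⟨C⟩ := SimpleGraph.chromaticNumber_le_iff_colorable.1 h6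
      have h7 := h5.colours (fun z => C (e z)) fun x y h => by
        refine C.valid ((SimpleGraph.fromRel_adj _ _ _).2 ⟨fun he => ?_, Or.inl ?_⟩)
        · rw [e.injective he, sub_self, norm_zero] at h
          exact lt_irrefl _ (h4 _ h)
        · rwa [LinearIsometryEquiv.dist_map, dist_eq_norm]
      rwa [Fintype.card_fin] at h7
    have h3 : Continuous fun ε : ℝ => ((f k).toNat : ℝ) * (c⁻¹ ^ k + ε) := by fun_prop
    have h4 := ge_of_tendsto ((h3.tendsto 0).mono_left (nhdsWithin_le_nhds (s := Set.Ioi 0)))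
      (eventually_mem_nhdsWithin.mono h2)
    rw [add_zero, inv_pow, ← div_eq_mul_inv, le_div_iff₀ (by positivity), one_mul] at h4
    exact h4
  have h2 : ratios ⊆ {c : ℝ | c ^ k ≤ (f k).toNat} := fun c hc => by
    have h3 : 0 ≤ c := by
      obtain ⟨n, a, -, -, rfl⟩ := hc
      positivity
    rcases h3.eq_or_lt with h4 | h4
    · exact (pow_le_pow_left₀ h3 (h4 ▸ zero_le_one) k).trans (h1 1 one_mem one_pos)
    · exact h1 c hc h4
  exact closure_minimal h2 (isClosed_le (by fun_prop) continuous_const)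
    (csSup_mem_closure ⟨1, one_mem⟩ bdd)

theorem f_le_pow {c : ℝ} (hc : phi < c) : ∀ᶠ k in atTop, ((f k).toNat : ℝ) ≤ c ^ k := by
  have h0 : 0 < phi := one_pos.trans_le one_le_phi
  have hc0 : 0 < c := h0.trans hc
  obtain ⟨ρ, h1, h2⟩ := exists_between (inv_strictAnti₀ h0 hc)
  have hρ : 0 < ρ := (inv_pos.2 hc0).trans h1
  have hρ1 : ρ ≤ 1 := h2.le.trans (inv_le_one_of_one_le₀ one_le_phi)
  have h3 : 1 < ρ * c := by rwa [inv_lt_iff_one_lt_mul₀ hc0] at h1
  obtain ⟨L, hL, h⟩ := f_le hρ h2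
  have h4 := (tendsto_pow_const_div_const_pow_of_one_lt 1 h3).eventually
    (gt_mem_nhds (show (0 : ℝ) < (L + 1)⁻¹ by positivity))
  filter_upwards [h4, eventually_ge_atTop 1] with k hk hk1
  have hk1' : (1 : ℝ) ≤ k := by exact_mod_cast hk1
  rw [pow_one, div_lt_iff₀ (by positivity), lt_inv_mul_iff₀ (by positivity), mul_pow] at hk
  have h5 := Nat.lt_floor_add_one (c ^ k)
  have h6 : ρ ^ k ≤ 1 := pow_le_one₀ hρ.le hρ1
  have h7 := h k ⌊c ^ k⌋₊ (by nlinarith [pow_pos hρ k])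
  have h8 : (f k).toNat ≤ ⌊c ^ k⌋₊ := ENat.toNat_le_of_le_natCast h7
  exact (Nat.cast_le.2 h8).trans (Nat.floor_le (by positivity))

theorem result : BddAbove ratios ∧ 1 < phi ∧ (∀ k, f k ≠ ⊤) ∧
    (∀ k, phi ^ k ≤ ((f k).toNat : ℝ)) ∧
    Tendsto (fun k : ℕ => ((f k).toNat : ℝ) ^ (1 / (k : ℝ))) atTop (𝓝 phi) := by
  refine ⟨bdd, one_lt_phi, f_ne_top, pow_le_f, tendsto_order.2 ⟨fun a ha => ?_, fun b hb => ?_⟩⟩
  · filter_upwards [eventually_ge_atTop 1] with k hk
    have h0 : 0 ≤ phi := zero_le_one.trans one_le_phi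
    refine ha.trans_le ?_
    have := Real.rpow_le_rpow (by positivity) (pow_le_f k) (by positivity : 0 ≤ 1 / (k : ℝ))
    rwa [one_div, Real.pow_rpow_inv_natCast h0 (by omega), ← one_div] at this
  · obtain ⟨c, h1, h2⟩ := exists_between hb
    have h0 : 0 ≤ c := (zero_le_one.trans one_le_phi).trans h1.le
    filter_upwards [f_le_pow h1, eventually_ge_atTop 1] with k hk hk1
    refine lt_of_le_of_lt ?_ h2
    have := Real.rpow_le_rpow (by positivity) hk (by positivity : 0 ≤ 1 / (k : ℝ))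
    rwa [one_div, Real.pow_rpow_inv_natCast h0 (by omega), ← one_div] at this

end Pool.Agent.Results.MP_843c79_co.Limit
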